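import Pool.Agent.Lib.MP_9e8697_nt.Mg.G007
import Pool.Agent.Lib.MP_9e8697_nt.Mg.G008

/-!
# Campaign SL: assembly (complete, NOT a task)
-/

set_option autoImplicit false

namespace Pool.Agent.MP_9e8697_nt.SL

theorem part_one (ε : ℝ) (h0 : 0 < ε) (h1 : ε ≤ 1) : ∃ K : ℝ, 0 < K ∧ ∀ (S : Finset ℕ) (X : ℕ), 1 ≤ X →
    ((S.filter (fun m => m ≤ X)).card : ℝ) ≤ 98 / 100 * ε * S.card + K * (X : ℝ) ^ (1 - ε / 100) +
      K * Real.log (X + 1) * ((S.image T \ S).card : ℝ) := by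
  obtain ⟨K, hK, h⟩ := params ε h0 h1
  refine ⟨K, hK, fun S X hX => ?_⟩
  obtain ⟨J, a, hJ, h2, h3, h4⟩ := h X hX
  have h5 := main_ineq S a hJ
  have h6 : (a : ℝ) / (J + 1) * S.card ≤ 98 / 100 * ε * S.card :=
    mul_le_mul_of_nonneg_right h3 (Nat.cast_nonneg _)
  have h7 : (a : ℝ) * ((S.image T \ S).card : ℝ) ≤ K * Real.log (X + 1) * ((S.image T \ S).card : ℝ) :=
    mul_le_mul_of_nonneg_right h4 (Nat.cast_nonneg _)
  linarith

open Classical in
theorem part_two (ε : ℝ) (h0 : 0 < ε) (h1 : ε ≤ 1) : ∃ K : ℝ, 0 < K ∧ ∀ x L : ℕ,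
    (∀ i < L, ∀ j < L, T^[i] x = T^[j] x → i = j) →
    (((Finset.range L).filter (fun k => ((T^[k] x : ℕ) : ℝ) ≤ (L : ℝ) ^ (1 + ε / 100))).card : ℝ) ≤ ε * L + K := by
  obtain ⟨K, hK, h⟩ := part_one ε h0 h1
  obtain ⟨K', hK', hn⟩ := numbers ε K h0 h1 hK
  refine ⟨K', hK', fun x L hL => ?_⟩
  rcases Nat.eq_zero_or_pos L with rfl | hL0
  · simp only [Finset.range_zero, Finset.filter_empty, Finset.card_empty, Nat.cast_zero, mul_zero, zero_add]
    exact hK'.le
  have hL1 : (1 : ℝ) ≤ L := by exact_mod_cast hL0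
  have hY1 : (1 : ℝ) ≤ (L : ℝ) ^ (1 + ε / 100) := Real.one_le_rpow hL1 (by linarith)
  set X : ℕ := ⌊(L : ℝ) ^ (1 + ε / 100)⌋₊ with hX
  have hX1 : 1 ≤ X := by
    rw [hX, Nat.one_le_floor_iff]
    exact hY1
  have hXY : (X : ℝ) ≤ (L : ℝ) ^ (1 + ε / 100) := Nat.floor_le (by linarith)
  set S : Finset ℕ := (Finset.range L).image (fun k => T^[k] x) with hS
  have hinj : Set.InjOn (fun k => T^[k] x) (Finset.range L : Set ℕ) := by
    intro i hi j hj hij
    rw [Finset.mem_coe, Finset.mem_range] at hi hj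
    exact hL i hi j hj hij
  have hcard : S.card = L := by
    rw [hS, Finset.card_image_of_injOn hinj, Finset.card_range]
  have hb : (S.image T \ S).card ≤ 1 := by
    rw [Finset.card_le_one]
    have key : ∀ y ∈ S.image T \ S, y = T^[L] x := by
      intro y hy
      rw [Finset.mem_sdiff, Finset.mem_image] at hy
      obtain ⟨⟨s, hs, rfl⟩, hy2⟩ := hy
      rw [hS, Finset.mem_image] at hs
      obtain ⟨k, hk, rfl⟩ := hs
      rw [Finset.mem_range] at hk
      have e : T ((fun k => T^[k] x) k) = T^[k + 1] x := (Function.iterate_succ_apply' T k x).symm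
      rw [e] at hy2 ⊢
      by_cases hkL : k + 1 < L
      · exact absurd (Finset.mem_image.2 ⟨k + 1, Finset.mem_range.2 hkL, rfl⟩) hy2
      · have : k + 1 = L := by omega
        rw [this]
    intro y hy z hz
    rw [key y hy, key z hz]
  have hle : ((Finset.range L).filter (fun k => ((T^[k] x : ℕ) : ℝ) ≤ (L : ℝ) ^ (1 + ε / 100))).card ≤
      (S.filter (fun m => m ≤ X)).card := by
    refine Finset.card_le_card_of_injOn (fun k => T^[k] x) ?_ ?_
    · intro k hk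
      rw [Finset.mem_coe, Finset.mem_filter] at hk
      rw [Finset.mem_coe, Finset.mem_filter]
      exact ⟨Finset.mem_image.2 ⟨k, hk.1, rfl⟩, Nat.le_floor hk.2⟩
    · intro i hi j hj hij
      rw [Finset.mem_coe, Finset.mem_filter] at hi hj
      exact hinj (Finset.mem_coe.2 hi.1) (Finset.mem_coe.2 hj.1) hij
  have h2 := h S X hX1
  have h3 := hn L hL0
  rw [hcard] at h2
  have hlog0 : 0 ≤ Real.log ((X : ℝ) + 1) := Real.log_nonneg (by linarith [(Nat.cast_nonneg X : (0 : ℝ) ≤ X)])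
  have h4 : K * Real.log (X + 1) * ((S.image T \ S).card : ℝ) ≤
      K * Real.log ((L : ℝ) ^ (1 + ε / 100) + 1) := by
    have h5 : ((S.image T \ S).card : ℝ) ≤ 1 := by exact_mod_cast hb
    calc K * Real.log (X + 1) * ((S.image T \ S).card : ℝ) ≤ K * Real.log (X + 1) * 1 :=
          mul_le_mul_of_nonneg_left h5 (mul_nonneg hK.le hlog0)
      _ = K * Real.log (X + 1) := mul_one _
      _ ≤ K * Real.log ((L : ℝ) ^ (1 + ε / 100) + 1) := by
          refine mul_le_mul_of_nonneg_left (Real.log_le_log ?_ (by linarith)) hK.le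
          have : (0 : ℝ) ≤ X := Nat.cast_nonneg X
          linarith
  have h6 : K * (X : ℝ) ^ (1 - ε / 100) ≤ K * ((L : ℝ) ^ (1 + ε / 100)) ^ (1 - ε / 100) :=
    mul_le_mul_of_nonneg_left (Real.rpow_le_rpow (Nat.cast_nonneg X) hXY (by linarith)) hK.le
  have h7 : (((Finset.range L).filter (fun k => ((T^[k] x : ℕ) : ℝ) ≤ (L : ℝ) ^ (1 + ε / 100))).card : ℝ) ≤
      ((S.filter (fun m => m ≤ X)).card : ℝ) := by exact_mod_cast hle
  linarith

end Pool.Agent.MP_9e8697_nt.SL
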